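import Mathlib
import Pool.Agent.R865.PS.Fin

/-!
# MP_2e038a_an

Periodic shadowing of weighted shifts on `ℓ_p(ℤ)` and on `c_0(ℤ)`.
-/

open Filter Finset Topology
open scoped ENNReal ZeroAtInfty

namespace Pool.Agent.Results.MP_2e038a_an.PeriodicShadowing

open Pool.Agent.R865.PS

variable {𝕜 : Type*} [RCLike 𝕜]

theorem norm_single_aux (p : ℝ≥0∞) [hp1 : Fact (1 ≤ p)] (n : ℤ) (a : 𝕜) :
    ‖(lp.single p n a : lp (fun _ : ℤ => 𝕜) p)‖ ≤ ‖a‖ := by
  have h : (0 : ℝ≥0∞) < p := zero_lt_one.trans_le hp1.out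
  exact (lp.norm_single (E := fun _ : ℤ => 𝕜) h n a).le

/-- `ℓ_p(ℤ)` is a sequence space. -/
noncomputable def ssLp (p : ℝ≥0∞) [hp1 : Fact (1 ≤ p)] (hp : p ≠ ∞) :
    SS 𝕜 (lp (fun _ : ℤ => 𝕜) p) where
  co :=
    { toFun := fun x => (x : ∀ _ : ℤ, 𝕜)
      map_add' := fun x y => lp.coeFn_add x y
      map_smul' := fun c x => lp.coeFn_smul c x }
  inj := fun x y h => lp.ext h
  co_le := fun x n => lp.norm_apply_le_norm (zero_lt_one.trans_le hp1.out).ne' x n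
  sg := fun n a => lp.single p n a
  co_sg := fun n a => by
    show ((lp.single p n a : lp (fun _ : ℤ => 𝕜) p) : ∀ _ : ℤ, 𝕜) = _
    rw [lp.coeFn_single]
  norm_sg := fun n a => norm_single_aux p n a
  ms := by
    intro m C hm k x
    have hC : 0 ≤ C := (norm_nonneg _).trans (hm 0)
    have hp0 : 0 < p.toReal := ENNReal.toReal_pos (zero_lt_one.trans_le hp1.out).ne' hp
    have hsum : Summable fun n : ℤ => ‖(x : ∀ _ : ℤ, 𝕜) (n + k)‖ ^ p.toReal :=
      (Equiv.addRight k).summable_iff.2 ((lp.memℓp x).summable hp0)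
    have hle : ∀ n : ℤ, ‖m n * (x : ∀ _ : ℤ, 𝕜) (n + k)‖ ^ p.toReal ≤
        C ^ p.toReal * ‖(x : ∀ _ : ℤ, 𝕜) (n + k)‖ ^ p.toReal := by
      intro n
      rw [← Real.mul_rpow hC (norm_nonneg _), norm_mul]
      have := hm n
      gcongr
    have hmem : Memℓp (fun n : ℤ => m n * (x : ∀ _ : ℤ, 𝕜) (n + k)) p :=
      memℓp_gen (Summable.of_nonneg_of_le (fun n => by positivity) hle (hsum.mul_left _))
    refine ⟨⟨_, hmem⟩, fun n => rfl, ?_⟩
    refine lp.norm_le_of_tsum_le hp0 (by positivity) ?_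
    show ∑' n : ℤ, ‖m n * (x : ∀ _ : ℤ, 𝕜) (n + k)‖ ^ p.toReal ≤ _
    calc ∑' n : ℤ, ‖m n * (x : ∀ _ : ℤ, 𝕜) (n + k)‖ ^ p.toReal
        ≤ ∑' n : ℤ, C ^ p.toReal * ‖(x : ∀ _ : ℤ, 𝕜) (n + k)‖ ^ p.toReal :=
          (Summable.of_nonneg_of_le (fun n => by positivity) hle (hsum.mul_left _)).tsum_le_tsum
            hle (hsum.mul_left _)
      _ = C ^ p.toReal * ∑' n : ℤ, ‖(x : ∀ _ : ℤ, 𝕜) (n + k)‖ ^ p.toReal := tsum_mul_left
      _ = C ^ p.toReal * ∑' n : ℤ, ‖(x : ∀ _ : ℤ, 𝕜) n‖ ^ p.toReal := by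
          congr 1
          exact (Equiv.addRight k).tsum_eq (fun n => ‖(x : ∀ _ : ℤ, 𝕜) n‖ ^ p.toReal)
      _ = (C * ‖x‖) ^ p.toReal := by
          rw [Real.mul_rpow hC (norm_nonneg _), lp.norm_rpow_eq_tsum hp0]

/-- `c_0(ℤ)` is a sequence space. -/
noncomputable def ssC : SS 𝕜 (C₀(ℤ, 𝕜)) where
  co :=
    { toFun := fun x n => x n
      map_add' := fun x y => rfl
      map_smul' := fun c x => rfl }
  inj := fun x y h => DFunLike.ext _ _ fun n => congrFun h n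
  co_le := fun x n => x.toBCF.norm_coe_le_norm n
  sg := fun n a => ⟨⟨Pi.single n a, continuous_of_discreteTopology⟩, by
    rw [cocompact_eq_cofinite]
    refine tendsto_const_nhds.congr' ?_
    filter_upwards [(Set.finite_singleton n).compl_mem_cofinite] with i hi
    exact (Pi.single_eq_of_ne (M := fun _ : ℤ => 𝕜) hi a).symm⟩
  co_sg := fun n a => rfl
  norm_sg := fun n a => by
    refine (BoundedContinuousFunction.norm_le (norm_nonneg _)).2 fun i => ?_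
    show ‖(Pi.single n a : ℤ → 𝕜) i‖ ≤ _
    by_cases h : i = n
    · rw [h, Pi.single_eq_same]
    · rw [Pi.single_eq_of_ne h, norm_zero]; exact norm_nonneg _
  ms := by
    intro m C hm k x
    have hC : 0 ≤ C := (norm_nonneg _).trans (hm 0)
    refine ⟨⟨⟨fun n => m n * x (n + k), continuous_of_discreteTopology⟩, ?_⟩, fun n => rfl, ?_⟩
    · show Tendsto (fun n : ℤ => m n * x (n + k)) (cocompact ℤ) (𝓝 0)
      have h1 : Tendsto (fun n : ℤ => x (n + k)) (cocompact ℤ) (𝓝 0) := by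
        have h2 := x.zero_at_infty'
        rw [cocompact_eq_cofinite] at h2 ⊢
        exact h2.comp (Equiv.addRight k).injective.tendsto_cofinite
      refine squeeze_zero_norm (a := fun n : ℤ => C * ‖x (n + k)‖) (fun n => ?_) ?_
      · rw [norm_mul]
        have := hm n
        gcongr
      · have := (h1.norm).const_mul C
        simpa using this
    · refine (BoundedContinuousFunction.norm_le (by positivity)).2 fun i => ?_
      show ‖m i * x (i + k)‖ ≤ _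
      rw [norm_mul]
      have h1 := hm i
      have h2 : ‖x (i + k)‖ ≤ ‖x‖ := x.toBCF.norm_coe_le_norm _
      gcongr

/-- the weighted shift as an invertible operator on a sequence space -/
theorem exists_shift {X : Type*} [NormedAddCommGroup X] [NormedSpace 𝕜 X] (s : SS 𝕜 X)
    (w : ℤ → 𝕜) (hb : ∃ C : ℝ, ∀ n, ‖w n‖ ≤ C) (hl : ∃ c : ℝ, 0 < c ∧ ∀ n, c ≤ ‖w n‖) :
    ∃ T : X ≃L[𝕜] X, ∀ x n, s.co (T x) n = w (n + 1) * s.co x (n + 1) := by
  obtain ⟨C, hC⟩ := hb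
  obtain ⟨c, hc, hl⟩ := hl
  have hw0 : ∀ n, w n ≠ 0 := fun n h => by
    have := hl n; rw [h, norm_zero] at this; linarith
  obtain ⟨T, hT⟩ := s.exists_op (fun n => w (n + 1)) C (fun n => hC _) 1
  obtain ⟨S, hS⟩ := s.exists_op (fun n => (w n)⁻¹) c⁻¹ (fun n => by
    rw [norm_inv]
    exact inv_anti₀ hc (hl n)) (-1)
  refine ⟨ContinuousLinearEquiv.equivOfInverse T S (fun x => ?_) (fun x => ?_), hT⟩
  · refine s.inj (funext fun n => ?_)
    rw [hS, hT]
    have := hw0 n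
    rw [neg_add_cancel_right]
    field_simp
  · refine s.inj (funext fun n => ?_)
    rw [hT, hS]
    have := hw0 (n + 1)
    rw [add_neg_cancel_right]
    field_simp

/-- The periodic shadowing property of a bijection `T` of a normed space: for every `ε > 0` there
is `δ > 0` such that every periodic two-sided `δ`-pseudotrajectory is `ε`-shadowed by the orbit of
a periodic point. -/
def PeriodicShadowingProperty {X : Type*} [NormedAddCommGroup X] (T : Equiv.Perm X) : Prop :=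
  ∀ ε : ℝ, 0 < ε → ∃ δ : ℝ, 0 < δ ∧ ∀ (x : ℤ → X) (q : ℕ), 0 < q → (∀ j : ℤ, x (j + q) = x j) →
    (∀ j : ℤ, ‖T (x j) - x (j + 1)‖ < δ) →
    ∃ y : X, (∃ n : ℕ, 0 < n ∧ (T ^ n) y = y) ∧ ∀ j : ℤ, ‖x j - (T ^ j) y‖ < ε

theorem perm_zpow {X : Type*} [NormedAddCommGroup X] [NormedSpace 𝕜 X] (T : X ≃L[𝕜] X) (j : ℤ) :
    ∀ x, ((T.toEquiv : Equiv.Perm X) ^ j) x = (T ^ j) x := by
  induction j using Int.induction_on with
  | zero => intro x; rw [zpow_zero, zpow_zero]; rfl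
  | succ n ih =>
    intro x
    rw [add_comm, zpow_add, zpow_add, zpow_one, zpow_one]
    show T (((T.toEquiv : Equiv.Perm X) ^ (n : ℤ)) x) = T ((T ^ (n : ℤ)) x)
    rw [ih]
  | pred n ih =>
    intro x
    apply T.injective
    rw [zpow_succ_apply, sub_add_cancel, ← ih]
    show (T.toEquiv : Equiv.Perm X) (((T.toEquiv : Equiv.Perm X) ^ (-(n : ℤ) - 1)) x) = _
    have : (T.toEquiv : Equiv.Perm X) ^ (-(n : ℤ)) =
        (T.toEquiv : Equiv.Perm X) * (T.toEquiv : Equiv.Perm X) ^ (-(n : ℤ) - 1) := by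
      rw [← zpow_one_add]; congr 1; ring
    rw [this]; rfl

theorem perm_pow {X : Type*} [NormedAddCommGroup X] [NormedSpace 𝕜 X] (T : X ≃L[𝕜] X) (n : ℕ)
    (x : X) : ((T.toEquiv : Equiv.Perm X) ^ n) x = (T ^ n) x := by
  have := perm_zpow T n x
  rwa [zpow_natCast, zpow_natCast] at this

theorem psp_perm {X : Type*} [NormedAddCommGroup X] [NormedSpace 𝕜 X] (T : X ≃L[𝕜] X) :
    PeriodicShadowingProperty (T.toEquiv : Equiv.Perm X) ↔ PSP T := by
  unfold PeriodicShadowingProperty PSP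
  simp only [perm_zpow, perm_pow]
  rfl

/-- **MP_2e038a_an, Q1.** Let `1 ≤ p < ∞` and let `w` be a bounded sequence of scalars with
`inf |w n| > 0`. The weighted shift `B_w` is a bijection of `ℓ_p(ℤ)` and of `c_0(ℤ)`,
and it has the periodic shadowing property on `ℓ_p(ℤ)` if and only if it has the periodic
shadowing property on `c_0(ℤ)`. -/
theorem result (𝕜 : Type*) [RCLike 𝕜] (p : ℝ≥0∞) [Fact (1 ≤ p)] (hp : p ≠ ∞) (w : ℤ → 𝕜)
    (hb : ∃ C : ℝ, ∀ n, ‖w n‖ ≤ C) (hl : ∃ c : ℝ, 0 < c ∧ ∀ n, c ≤ ‖w n‖) :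
    ∃ (T : Equiv.Perm (lp (fun _ : ℤ => 𝕜) p)) (S : Equiv.Perm C₀(ℤ, 𝕜)),
      (∀ (x : lp (fun _ : ℤ => 𝕜) p) (n : ℤ), T x n = w (n + 1) * x (n + 1)) ∧
      (∀ (x : C₀(ℤ, 𝕜)) (n : ℤ), S x n = w (n + 1) * x (n + 1)) ∧
      (PeriodicShadowingProperty T ↔ PeriodicShadowingProperty S) := by
  obtain ⟨D⟩ := exists_WD w hb hl
  obtain ⟨T, hT⟩ := exists_shift (ssLp (𝕜 := 𝕜) p hp) w hb hl
  obtain ⟨S, hS⟩ := exists_shift (ssC (𝕜 := 𝕜)) w hb hl
  refine ⟨T.toEquiv, S.toEquiv, hT, hS, ?_⟩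
  rw [psp_perm, psp_perm]
  constructor
  · intro h
    exact psp_of_dich D ssC S hS (dich_of_psp D (ssLp p hp) T hT h)
  · intro h
    exact psp_of_dich D (ssLp p hp) T hT (dich_of_psp D ssC S hS h)

end Pool.Agent.Results.MP_2e038a_an.PeriodicShadowing
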